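import Pool.Agent.H30.LT.Defs

/-!
# MP_70ba79_ag: targets of the board `al_modules`
-/

set_option autoImplicit false

namespace Pool.Agent.H30.LT

open MvPolynomial SC Pool.Agent.H27.LV Pool.Agent.H30.AV Pool.Agent.H30.AW Pool.Agent.H30.AX
  Cardinal

attribute [local instance] MvPolynomial.algebraMvPolynomial

/-! ### Group A: modules over polynomial rings -/

/-- RCO: the rank of `cof V` -/
def T_RCO : Prop := ∀ (R 𝔸 τ : Type) [CommRing R] [IsDomain R] [CommRing 𝔸] [IsDomain 𝔸]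
  [Algebra R 𝔸] (V : Submodule R 𝔸), Function.Injective (algebraMap R 𝔸) →
  Module.rank R V < ℵ₀ → Module.rank (MvPolynomial τ R) (cof τ V) = Module.rank R V

/-- PRI: linear forms with invertible coefficients generate prime ideals -/
def T_PRI : Prop := ∀ (𝔸 τ : Type) [CommRing 𝔸] [IsDomain 𝔸] [Fintype τ] (p p' : τ)
  (ω ω' : τ → 𝔸), IsUnit (ω p) → ω p' = 0 → IsUnit (ω' p') →
  (Ideal.span {lin ω}).IsPrime ∧ lin ω' ∉ Ideal.span {lin ω} ∧ lin ω ≠ 0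

/-- DER: the order of a zero is detected by the derivatives in the directions `p`, `p'` -/
def T_DER : Prop := ∀ (𝔸 τ : Type) [CommRing 𝔸] [IsDomain 𝔸] [CharZero 𝔸] [Fintype τ]
  (p p' : τ) (ω ω' : τ → 𝔸), IsUnit (ω p) → ω p' = 0 → IsUnit (ω' p') → ω' p = 0 →
  ∀ (j : ℕ) (G : MvPolynomial τ 𝔸), G ∈ Ideal.span {lin ω, lin ω'} ^ j →
  (∀ i ≤ j, (pderiv p)^[i] ((pderiv p')^[j - i] G) ∈ Ideal.span {lin ω, lin ω'}) →
  G ∈ Ideal.span {lin ω, lin ω'} ^ (j + 1)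

/-- LEV: the number of conditions for a zero of order `j + 1` instead of `j` -/
def T_LEV : Prop := ∀ (R 𝔸 τ : Type) [CommRing R] [IsDomain R] [CommRing 𝔸] [IsDomain 𝔸]
  [CharZero 𝔸] [Algebra R 𝔸] [Fintype τ] (V : Submodule R 𝔸) (p p' : τ) (ω ω' : τ → 𝔸),
  Function.Injective (algebraMap R 𝔸) → Module.rank R V < ℵ₀ →
  IsUnit (ω p) → ω p' = 0 → IsUnit (ω' p') → ω' p = 0 → ∀ j : ℕ,
  rkI V (Ideal.span {lin ω, lin ω'} ^ j) + (j + 1) * rkI V (Ideal.span {lin ω, lin ω'}) ≤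
    rkI V (Ideal.span {lin ω, lin ω'} ^ (j + 1)) + (j + 1) * rkI (τ := τ) V ⊤

/-- XRO: restriction to the hyperplanes, multiplication by the linear forms -/
def T_XRO : Prop := ∀ (R 𝔸 τ : Type) [CommRing R] [IsDomain R] [CommRing 𝔸] [IsDomain 𝔸]
  [Algebra R 𝔸] [Fintype τ] (V V' : Submodule R 𝔸) (p p' : τ) (ω ω' : τ → 𝔸),
  Function.Injective (algebraMap R 𝔸) → Module.rank R V < ℵ₀ → Module.rank R V' < ℵ₀ →
  IsUnit (ω p) → ω p' = 0 → IsUnit (ω' p') →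
  (∀ s, ∀ u ∈ V, ω s * u ∈ V' ∧ ω' s * u ∈ V') →
  rkI (τ := τ) V ⊤ ≤ rkI V' (Ideal.span {lin ω}) ∧
  rkI (τ := τ) V ⊤ + rkI V' (Ideal.span {lin ω}) ≤
    rkI V' (Ideal.span {lin ω, lin ω'}) + rkI V (Ideal.span {lin ω})

/-- ABS: the step, abstract form -/
def T_ABS : Prop := ∀ (R 𝔸 τ : Type) [CommRing R] [IsDomain R] [CommRing 𝔸] [IsDomain 𝔸]
  [CharZero 𝔸] [Algebra R 𝔸] [Fintype τ] (V : ℕ → Submodule R 𝔸) (p p' : τ) (ω ω' : τ → 𝔸),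
  Function.Injective (algebraMap R 𝔸) → (∀ M, Module.rank R (V M) < ℵ₀) →
  IsUnit (ω p) → ω p' = 0 → IsUnit (ω' p') → ω' p = 0 →
  (∀ M s, ∀ u ∈ V M, ω s * u ∈ V (M + 1) ∧ ω' s * u ∈ V (M + 1)) → ∀ w : ℕ,
  ∃ ρ x : ℕ → ℕ, (∀ M, Module.finrank R (V M) ≤
      rkI (V M) (Ideal.span {lin ω, lin ω'} ^ w) + w * (w + 1) / 2 * ρ M) ∧
    ρ 0 ≤ x 0 ∧ x 0 ≤ Module.finrank R (V 0) ∧
    ∀ M, ρ (M + 1) + x M ≤ x (M + 1) ∧
      x (M + 1) + Module.finrank R (V M) ≤ Module.finrank R (V (M + 1))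

/-- PLK: two of the linear forms `(W a)_s` generate the ideal -/
def T_PLK : Prop := ∀ (F : Type) [Field F] (n : ℕ) (W : Zw n → F) (p p' : Fin (n + 1)),
  Rk2 W → W (p, p') ≠ 0 → (∀ s, ∃ u u' : F, ∀ t, W (s, t) = u * W (p, t) + u' * W (p', t)) ∧
  ∀ (q : ℕ) (i : Fin q), nI W q i = Ideal.span {lf W q i p', lf W q i p}

/-- FIN: the ranks are finite; the case `q = 0` -/
def T_FIN : Prop := ∀ (k F : Type) [Field k] [Field F] [Algebra k F] (n : ℕ) (W : Zw n → F)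
  (w q M : ℕ), Module.rank (MvPolynomial (Lw q n) k) ↥(VM k W w q M) < ℵ₀ ∧
  hq k W w 0 M = Module.finrank k (Uf k W M)

/-- TRF: one more block of parameters -/
def T_TRF : Prop := ∀ (k F : Type) [Field k] [Field F] [Algebra k F] (n : ℕ) (W : Zw n → F)
  (p p' : Fin (n + 1)), Rk2 W → W (p, p') ≠ 0 → ∀ w q M : ℕ,
  hq k W w (q + 1) M = rkI (τ := Fin (n + 1)) (VM k W w q M)
    (Ideal.span {lin fun t => C (W (p', t)), lin fun t => C (W (p, t))} ^ w)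

/-- STP: the step -/
def T_STP : Prop := ∀ (k F : Type) [Field k] [CharZero k] [Field F] [Algebra k F] (n : ℕ)
  (W : Zw n → F), Rk2 W → W ≠ 0 → ∀ w q : ℕ,
  (∀ M, hq k W w (q + 1) M ≤ hq k W w q M) ∧
  ∃ ρ x : ℕ → ℕ, (∀ M, hq k W w q M ≤ hq k W w (q + 1) M + w * (w + 1) / 2 * ρ M) ∧
    ρ 0 ≤ x 0 ∧ x 0 ≤ hq k W w q 0 ∧
    ∀ M, ρ (M + 1) + x M ≤ x (M + 1) ∧ x (M + 1) + hq k W w q M ≤ hq k W w q (M + 1)

/-! ### Group B: the Hilbert function, numbers -/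

/-- HIL: the Hilbert function of a homogeneous prime ideal -/
def T_HIL : Prop := ∀ (k : Type) [Field k] [Infinite k] (n β : ℕ)
  (P : Ideal (MvPolynomial (Zw n) k)), P.IsPrime → IsHom P →
  Algebra.trdeg k (MvPolynomial (Zw n) k ⧸ P) = (β + 2 : ℕ) →
  ∃ e c : ℕ, 1 ≤ e ∧ ∀ (F : Type) [Field F] [Algebra k F] (W : Zw n → F),
    (∀ g, aeval W g = 0 ↔ g ∈ P) → ∀ M,
    e * Fintype.card (Mon (β + 2) M) ≤ Module.finrank k (Uf k W (M + c)) ∧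
    Module.finrank k (Uf k W M) ≤ e * Fintype.card (Mon (β + 2) (M + c))

/-- GFN: the generating functions -/
def T_GFN : Prop := ∀ (h ρ x : ℕ → ℕ → ℕ) (A : ℕ) (z : ℝ) (q : ℕ), 0 < z → z < 1 →
  A * (1 - z) ^ 2 ≤ 1 → (Summable fun M => (h 0 M : ℝ) * z ^ M) →
  (∀ j M, h (j + 1) M ≤ h j M) → (∀ j M, h j M ≤ h (j + 1) M + A * ρ j M) →
  (∀ j, ρ j 0 ≤ x j 0 ∧ x j 0 ≤ h j 0) →
  (∀ j M, ρ j (M + 1) + x j M ≤ x j (M + 1) ∧ x j (M + 1) + h j M ≤ h j (M + 1)) →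
  (Summable fun M => (h q M : ℝ) * z ^ M) ∧
  (1 - A * (1 - z) ^ 2) ^ q * ∑' M, (h 0 M : ℝ) * z ^ M ≤ ∑' M, (h q M : ℝ) * z ^ M

/-- TAI: the tail of the generating function -/
def T_TAI : Prop := ∀ (h : ℕ → ℕ → ℕ) (D c e q N : ℕ) (z z' : ℝ), 0 < z → z < z' → z' < 1 →
  1 ≤ e → (∀ M, e * (D + M).choose D ≤ h 0 (M + c)) →
  (∀ M, h 0 M ≤ e * (D + (M + c)).choose D) → (∀ j M, h (j + 1) M ≤ h j M) →
  (Summable fun M => (h 0 M : ℝ) * z ^ M) ∧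
  z ^ c / (1 - z) ^ (D + 1) * e ≤ ∑' M, (h 0 M : ℝ) * z ^ M ∧
  ((∀ M < N, h q M = 0) →
    ∑' M, (h q M : ℝ) * z ^ M ≤ (z / z') ^ N * (e / (z' ^ c * (1 - z') ^ (D + 1))))

/-- LIM: choice of the numbers `w`, `z`, `z'` -/
def T_LIM : Prop := ∀ m r D q c : ℕ, 2 ≤ m → 1 ≤ r → D ≤ 2 * r →
  41 * m ^ 2 * r ≤ (m - 1) ^ 2 * q → ∃ (w : ℕ) (z z' : ℝ), 1 ≤ w ∧ 0 < z ∧ z < z' ∧ z' < 1 ∧
    ((w * (w + 1) / 2 : ℕ) : ℝ) * (1 - z) ^ 2 ≤ 1 ∧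
    ∀ N : ℕ, (m - 1) * q * w ≤ 2 * m * N → (z / z') ^ N * (1 - z) ^ D <
      (1 - ((w * (w + 1) / 2 : ℕ) : ℝ) * (1 - z) ^ 2) ^ q * (z * z') ^ c * (1 - z') ^ D

/-- NM5: a function with the inequalities of the step is not zero in small degrees -/
def T_NM5 : Prop := ∀ m r β q c e : ℕ, 2 ≤ m → 1 ≤ r → β + 2 ≤ 2 * r →
  41 * m ^ 2 * r ≤ (m - 1) ^ 2 * q → 1 ≤ e → ∃ w, 1 ≤ w ∧ ∀ h ρ x : ℕ → ℕ → ℕ,
  (∀ M, e * Fintype.card (Mon (β + 2) M) ≤ h 0 (M + c)) →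
  (∀ M, h 0 M ≤ e * Fintype.card (Mon (β + 2) (M + c))) →
  (∀ j M, h (j + 1) M ≤ h j M) → (∀ j M, h j M ≤ h (j + 1) M + w * (w + 1) / 2 * ρ j M) →
  (∀ j, ρ j 0 ≤ x j 0 ∧ x j 0 ≤ h j 0) →
  (∀ j M, ρ j (M + 1) + x j M ≤ x j (M + 1) ∧ x j (M + 1) + h j M ≤ h j (M + 1)) →
  ∃ M, 0 < h q M ∧ 2 * m * M < (m - 1) * q * w

/-- EX5: a polynomial of small degree with zeros of high order, at the generic point -/
def T_EX5 : Prop := ∀ (k : Type) [Field k] [CharZero k] (m n r q β : ℕ)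
  (P : Ideal (MvPolynomial (Zw n) k)), 2 ≤ m → 1 ≤ r → β + 2 ≤ 2 * r →
  41 * m ^ 2 * r ≤ (m - 1) ^ 2 * q → P.IsPrime → IsHom P → Alt P → Plu P →
  Algebra.trdeg k (MvPolynomial (Zw n) k ⧸ P) = (β + 2 : ℕ) →
  ∀ (F : Type) [Field F] [Algebra k F] (W : Zw n → F), (∀ g, aeval W g = 0 ↔ g ∈ P) →
  ∃ (M w : ℕ) (G : MvPolynomial (Lw q n) F), 1 ≤ w ∧ w * r ≤ M ∧
    2 * m * M < (m - 1) * q * w ∧ G ≠ 0 ∧ G ∈ VM k W w q M

/-! ### Group C: specialisation -/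

/-- PSI: the ideals `nI` in other coordinates -/
def T_PSI : Prop := ∀ (F : Type) [Field F] (n : ℕ) (W : Zw n → F) (p p' : Fin (n + 1)),
  Rk2 W → W (p, p') ≠ 0 → ∀ (q w : ℕ) (i : Fin q) (G : MvPolynomial (Lw q n) F),
  G ∈ nI W q i ^ w ↔ ∀ m, m (i, p) + m (i, p') < w → coeff m (psub W q p p' G) = 0

/-- ZIG: if `G` vanishes to the order `w` at the generic point, then everywhere -/
def T_ZIG : Prop := ∀ (k : Type) [Field k] [CharZero k] (n q w : ℕ) (i : Fin q)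
  (P : Ideal (MvPolynomial (Zw n) k)), Alt P → Plu P →
  ∀ (F : Type) [Field F] [Algebra k F] (W : Zw n → F), (∀ g, aeval W g = 0 ↔ g ∈ P) →
  ∀ G : MvPolynomial (Lw q n) (MvPolynomial (Zw n) k), sz W G ∈ nI W q i ^ w → ZI P i w G

/-- PX5: a polynomial of small degree with zeros of high order -/
def T_PX5 : Prop := ∀ (k : Type) [Field k] [CharZero k] (m n r q β : ℕ)
  (P : Ideal (MvPolynomial (Zw n) k)), 2 ≤ m → 1 ≤ r → β + 2 ≤ 2 * r →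
  41 * m ^ 2 * r ≤ (m - 1) ^ 2 * q → P.IsPrime → IsHom P → Alt P → Plu P →
  Algebra.trdeg k (MvPolynomial (Zw n) k ⧸ P) = (β + 2 : ℕ) →
  ∃ (M w : ℕ) (G : MvPolynomial (Lw q n) (MvPolynomial (Zw n) k)), 1 ≤ w ∧ w * r ≤ M ∧
    2 * m * M < (m - 1) * q * w ∧ HomC M G ∧ ¬ InC P G ∧ ∀ i, ZI P i w G

/-- GE5: specialisation of the coefficients -/
def T_GE5 : Prop := ∀ (k : Type) [Field k] [Infinite k] (n q q0 m : ℕ)
  (P : Ideal (MvPolynomial (Zw n) k)) (Θ : MvPolynomial (Lw q0 n) (MvPolynomial (Zw n) k)),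
  P.IsPrime → Algebra.trdeg k (MvPolynomial (Zw n) k ⧸ P) ≤ (m : Cardinal) → q0 + m ≤ q →
  ∃ Δ : MvPolynomial (Fin q × Fin (n + 1)) k, Δ ≠ 0 ∧
    ∀ a : Fin q → Fin (n + 1) → k, eval (fun p => a p.1 p.2) Δ ≠ 0 →
    ∀ (K : Type) [Field K] [Algebra k K] (γ : Zw n → K), (∀ g ∈ P, aeval γ g = 0) →
    (∃ μ, aeval γ (coeff μ Θ) ≠ 0) →
    ∃ I : Fin q0 → Fin q, Function.Injective I ∧ aeval γ (spa (fun i => a (I i)) Θ) ≠ 0

/-! ### Group D: curves -/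

/-- LO5: the order at a place -/
def T_LO5 : Prop := ∀ (k K : Type) [Field k] [Field K] [Algebra k K] (n q w M : ℕ) (v : DV k K)
  (W : Zw n → K) (p p' : Fin (n + 1)) (μ₀ : ℤ) (a : Fin q → Fin (n + 1) → k)
  (G : MvPolynomial (Lw q n) (MvPolynomial (Zw n) k)) (o : Fin q → ℤ), Rk2 W →
  W (p, p') ≠ 0 → v.ord (W (p, p')) = μ₀ → (∀ s, ge v μ₀ (W s)) → HomC M G →
  (∀ i, sz W G ∈ nI W q i ^ w) → (∀ i, 0 ≤ o i) →
  (∀ i s, ge v (μ₀ + o i) (∑ t, W (s, t) * algebraMap k K (a i t))) →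
  ge v (M * μ₀ + w * ∑ i, o i) (aeval W (spa a G))

/-- CU5: the inequality for one curve -/
def T_CU5 : Prop := ∀ (k K : Type) [Field k] [IsAlgClosed k] [CharZero k] [Field K] [Algebra k K]
  [Algebra.EssFiniteType k K], Algebra.trdeg k K = 1 → ∀ (m n q r M w : ℕ)
  (a : Fin q → Fin (n + 1) → k) (S : Finset (DV k K)) (y : Fin n → K) (D : Derivation k K K)
  (G : MvPolynomial (Lw q n) (MvPolynomial (Zw n) k)), 2 ≤ m → D ≠ 0 →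
  (∃ j, y j ∉ Set.range (algebraMap k K)) → (∀ i, Orb m S y (a i)) →
  (∀ (v : DV k K) (I : Finset (Fin q)), (∀ i ∈ I, 0 < lam v y (a i)) → I.card ≤ r) →
  w * r ≤ M → HomC M G → (∀ i, sz (lift2 y D) G ∈ nI (lift2 y D) q i ^ w) →
  aeval (lift2 y D) (spa a G) ≠ 0 →
  (((m : ℤ) - 1) * q * w - 2 * m * M) * deg k y ≤ m * M * (canDeg D + S.card)

/-! ### Group E: induction -/

/-- TA5: the tangent lines of an irreducible variety, outside a hypersurface -/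
def T_TA5 : Prop := ∀ (k : Type) [Field k] [CharZero k] (n r : ℕ)
  (Q : Ideal (MvPolynomial (Fin n) k)), Q.IsPrime →
  Algebra.trdeg k (MvPolynomial (Fin n) k ⧸ Q) ≤ (r : Cardinal) →
  ∃ (f : MvPolynomial (Fin n) k) (P : Ideal (MvPolynomial (Zw n) k)), f ∉ Q ∧ P.IsPrime ∧
    IsHom P ∧ Alt P ∧ Plu P ∧ Algebra.trdeg k (MvPolynomial (Zw n) k ⧸ P) ≤ (2 * r : ℕ) ∧
    ∀ (K : Type) [Field K] [Algebra k K] (D : Derivation k K K) (y : Fin n → K),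
      (∀ g ∈ Q, aeval y g = 0) → aeval y f ≠ 0 → ∀ g ∈ P, aeval (lift2 y D) g = 0

/-- PR5: the main step, for a prime ideal -/
def T_PR5 : Prop := ∀ (k : Type) [Field k] [IsAlgClosed k] [CharZero k] (m n r q : ℕ)
  (Q : Set (MvPolynomial (Fin n) k)), 2 ≤ m → 1 ≤ r → DimLE Q r →
  41 * m ^ 2 * r ≤ (m - 1) ^ 2 * (q - 2 * r) →
  ∀ P : Ideal (MvPolynomial (Zw n) k), P.IsPrime → IsHom P → Alt P → Plu P →
  Algebra.trdeg k (MvPolynomial (Zw n) k ⧸ P) ≤ (2 * r : ℕ) →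
  (∀ A : Ideal (MvPolynomial (Zw n) k), P < A → IsHom A →
    Bd3 k n q m Q fun _ _ _ y D => ∀ g ∈ A, aeval (lift2 y D) g = 0) →
  Bd3 k n q m Q fun _ _ _ y D => ∀ g ∈ P, aeval (lift2 y D) g = 0

/-- IN5: induction over the homogeneous ideals which contain `P` -/
def T_IN5 : Prop := ∀ (k : Type) [Field k] [IsAlgClosed k] [CharZero k] (m n r q : ℕ)
  (Q : Set (MvPolynomial (Fin n) k)), 2 ≤ m → 1 ≤ r → DimLE Q r →
  41 * m ^ 2 * r ≤ (m - 1) ^ 2 * (q - 2 * r) →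
  ∀ P : Ideal (MvPolynomial (Zw n) k), P.IsPrime → IsHom P → Alt P → Plu P →
  Algebra.trdeg k (MvPolynomial (Zw n) k ⧸ P) ≤ (2 * r : ℕ) →
  Bd3 k n q m Q fun _ _ _ y D => ∀ g ∈ P, aeval (lift2 y D) g = 0

/-- IZ5: induction over the closed subsets of the variety -/
def T_IZ5 : Prop := ∀ (k : Type) [Field k] [IsAlgClosed k] [CharZero k] (m n r q : ℕ)
  (Q : Set (MvPolynomial (Fin n) k)), 2 ≤ m → 1 ≤ r → DimLE Q r →
  41 * m ^ 2 * r ≤ (m - 1) ^ 2 * (q - 2 * r) → Bd3 k n q m Q fun _ _ _ _ _ => True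

/-- IZN: the theorem for linear polynomials -/
def T_IZN : Prop := ∀ (k : Type) [Field k] [IsAlgClosed k] [CharZero k] (m n r q : ℕ)
  (Q : Set (MvPolynomial (Fin n) k)), 2 ≤ m → 1 ≤ r → DimLE Q r → NQ m r q →
  Bd3 k n q m Q fun _ _ _ _ _ => True

/-- VE5: the theorem for polynomials of degree `e` -/
def T_VE5 : Prop := ∀ (k : Type) [Field k] [IsAlgClosed k] [CharZero k] (m n r e q : ℕ)
  (Q : Set (MvPolynomial (Fin n) k)), 2 ≤ m → 1 ≤ r → 1 ≤ e → DimLE Q r → NQ m r q →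
  ∃ (Δ : MvPolynomial (Fin q × Pol n e) k) (B : ℕ), Δ ≠ 0 ∧ 1 ≤ B ∧
    ∀ a : Fin q → Pol n e → k, eval (fun p => a p.1 p.2) Δ ≠ 0 →
    ∀ (K : Type) [Field K] [Algebra k K] [Algebra.EssFiniteType k K], Algebra.trdeg k K = 1 →
    ∀ (S : Finset (DV k K)) (y : Fin n → K) (D : Derivation k K K), D ≠ 0 →
    (∀ g ∈ Q, aeval y g = 0) → (∃ j, y j ∉ Set.range (algebraMap k K)) →
    (∀ i, pv (a i) y ≠ 0) → (∀ v, v ∉ S → ∀ i, v.ord (pv (a i) y) + e * poleOrder v y = 0 ∨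
      (m : ℤ) ≤ v.ord (pv (a i) y) + e * poleOrder v y) →
    (deg k y : ℤ) ≤ B * (canDeg D + S.card)

/-- PJ5: the projective version -/
def T_PJ5 : Prop := ∀ (k : Type) [Field k] [IsAlgClosed k] [CharZero k] (m n r e q : ℕ)
  (Q : Set (MvPolynomial (Fin (n + 1)) k)), 2 ≤ m → 1 ≤ r → 1 ≤ e →
  (∀ g ∈ Q, ∃ d, g.IsHomogeneous d) → DimLE Q (r + 1) → NQ m r q →
  ∃ (Δ : MvPolynomial (Fin q × Mon (n + 1) e) k) (B : ℕ), Δ ≠ 0 ∧ 1 ≤ B ∧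
    ∀ a : Fin q → Mon (n + 1) e → k, eval (fun p => a p.1 p.2) Δ ≠ 0 →
    ∀ (K : Type) [Field K] [Algebra k K] [Algebra.EssFiniteType k K], Algebra.trdeg k K = 1 →
    ∀ (S : Finset (DV k K)) (z : Fin (n + 1) → K) (D : Derivation k K K), D ≠ 0 →
    (∃ j, z j = 1) → (∀ g ∈ Q, aeval z g = 0) → (∃ j, z j ∉ Set.range (algebraMap k K)) →
    (∀ i, fv (a i) z ≠ 0) → (∀ v, v ∉ S → ∀ i, v.ord (fv (a i) z) + e * poleOrder v z = 0 ∨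
      (m : ℤ) ≤ v.ord (fv (a i) z) + e * poleOrder v z) →
    (deg k z : ℤ) ≤ B * (canDeg D + S.card)

end Pool.Agent.H30.LT
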