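import Pool.Agent.H30.AW.PR2
import Pool.Agent.H30.LT.Targets

/-!
# Row PR5: the main step
-/

set_option autoImplicit false

namespace Pool.Agent.H30.LT

open MvPolynomial SC Pool.Agent.H27.LV Pool.Agent.H30.AV Pool.Agent.H30.AW Pool.Agent.H30.AX

/-- numbers -/
lemma num_bz5 {m r q : ℕ} (hm : 2 ≤ m) (hr : 1 ≤ r)
    (hq : 41 * m ^ 2 * r ≤ (m - 1) ^ 2 * (q - 2 * r)) : 2 * r < q ∧ 2 * r * m < (m - 1) * q := by
  obtain ⟨s, rfl⟩ : ∃ s, m = s + 1 := ⟨m - 1, by omega⟩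
  rw [Nat.add_sub_cancel] at *
  obtain ⟨d, hd⟩ : ∃ d, d = q - 2 * r := ⟨_, rfl⟩
  rw [← hd] at hq
  have hs : 1 ≤ s := by omega
  have hd0 : 0 < d := by
    rcases Nat.eq_zero_or_pos d with h0 | h0
    · exfalso
      rw [h0, mul_zero] at hq
      have : 0 < 41 * (s + 1) ^ 2 * r := by positivity
      omega
    · exact h0
  have hqd : q = d + 2 * r := by omega
  have h1 : 2 * r * (s + 1) < s * d := by
    by_contra hcon
    push Not at hcon
    have h2 : s ^ 2 * d ≤ s * (2 * r * (s + 1)) := by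
      calc s ^ 2 * d = s * (s * d) := by ring
        _ ≤ _ := Nat.mul_le_mul_left _ hcon
    nlinarith [Nat.zero_le (s * r), Nat.zero_le (s ^ 2 * r)]
  refine ⟨by omega, ?_⟩
  rw [hqd]
  calc 2 * r * (s + 1) < s * d := h1
    _ ≤ s * (d + 2 * r) := Nat.mul_le_mul_left _ (by omega)

/-- the form after the substitution of constants -/
lemma spa_hom {k : Type} [Field k] {n q M : ℕ} (a : Fin q → Fin (n + 1) → k)
    {G : MvPolynomial (Lw q n) (MvPolynomial (Zw n) k)} (hG : HomC M G) :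
    (spa a G).IsHomogeneous M := by
  unfold spa
  rw [eval_eq]
  refine IsHomogeneous.sum _ _ _ fun m _ => ?_
  have h1 : (∏ i ∈ m.support, (C (a i.1 i.2) : MvPolynomial (Zw n) k) ^ m i) =
      C (∏ i ∈ m.support, a i.1 i.2 ^ m i) := by
    rw [map_prod]
    simp only [map_pow]
  rw [h1]
  have := (hG m).mul (isHomogeneous_C (Zw n) (∏ i ∈ m.support, a i.1 i.2 ^ m i))
  simpa using this

theorem pf_PR5 (hPX5 : T_PX5) (hGE5 : T_GE5) (hGPV : T_GPV) (hCU5 : T_CU5) (hBZ3 : T_BZ3) :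
    T_PR5 := by
  intro k _ _ _ m n r q Q hm hr hdim hq P hP hPh halt hplu htr IH
  classical
  obtain ⟨hqr, hnum0⟩ := num_bz5 hm hr hq
  obtain ⟨t, ht⟩ := Cardinal.lt_aleph0.1 (htr.trans_lt (Cardinal.natCast_lt_aleph0))
  have ht2 : t ≤ 2 * r := by
    rw [ht] at htr
    exact_mod_cast htr
  by_cases ht1 : t ≤ 1
  · refine hBZ3 k m n r q Q hm hr hdim hnum0 P hP hPh ?_
    rw [ht]
    exact_mod_cast ht1
  push Not at ht1
  obtain ⟨β, rfl⟩ : ∃ β, t = β + 2 := ⟨t - 2, by omega⟩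
  obtain ⟨q0, rfl⟩ : ∃ q0, q = q0 + 2 * r := ⟨q - 2 * r, by omega⟩
  rw [Nat.add_sub_cancel] at hq
  obtain ⟨M, w, G, hw, hwr, hnum, hG, hnot, hZI⟩ :=
    hPX5 k m n r q0 β P hm hr ht2 hq hP hPh halt hplu ht
  obtain ⟨m0, hm0⟩ := not_forall.1 hnot
  obtain ⟨θ, hθ⟩ : ∃ θ, θ = coeff m0 G := ⟨_, rfl⟩
  rw [← hθ] at hm0
  have hθh : θ.IsHomogeneous M := by
    rw [hθ]
    exact hG m0
  -- the larger ideal
  obtain ⟨Δ1, B1, hΔ1, hB1, hbd1⟩ := IH (P ⊔ Ideal.span {θ})
    (lt_of_le_of_ne le_sup_left fun h1 => hm0 (by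
      rw [h1]
      exact Ideal.mem_sup_right (Ideal.mem_span_singleton_self _)))
    (hPh.sup (isHom_span fun f hf => by
      rw [Set.mem_singleton_iff] at hf
      rw [hf]
      exact ⟨_, hθh⟩))
  obtain ⟨Δ2, hΔ2, hgen⟩ := hGE5 k n (q0 + 2 * r) q0 (2 * r) P G hP
    (by rw [ht]; exact_mod_cast ht2) le_rfl
  obtain ⟨Δ3, hΔ3, hgpv⟩ := hGPV k n r (q0 + 2 * r) Q hdim
  obtain ⟨B2, hB2⟩ : ∃ B2, B2 = m * M := ⟨_, rfl⟩
  refine ⟨Δ1 * Δ2 * Δ3, B1 + B2, mul_ne_zero (mul_ne_zero hΔ1 hΔ2) hΔ3, by omega, ?_⟩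
  intro a ha K _ _ _ htrK S y D hD hQy hnc horb hV
  rw [map_mul, map_mul, mul_ne_zero_iff, mul_ne_zero_iff] at ha
  obtain ⟨⟨ha1, ha2⟩, ha3⟩ := ha
  have hdeg0 : (0 : ℤ) ≤ deg k y := by positivity
  by_cases hθy : aeval (lift2 y D) θ = 0
  · have h1 : (deg k y : ℤ) ≤ B1 * (canDeg D + S.card) := by
      refine hbd1 a ha1 K htrK S y D hD hQy hnc horb ?_
      intro f hf
      obtain ⟨f1, hf1, f2, hf2, rfl⟩ := Submodule.mem_sup.1 hf
      obtain ⟨f3, rfl⟩ := Ideal.mem_span_singleton'.1 hf2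
      rw [map_add, map_mul, hV f1 hf1, hθy, mul_zero, add_zero]
    have hχ : 0 ≤ canDeg D + S.card := by
      by_contra hcon
      push Not at hcon
      have : (1 : ℤ) ≤ B1 := by exact_mod_cast hB1
      nlinarith
    push_cast
    have : (0 : ℤ) ≤ B2 * (canDeg D + S.card) := by positivity
    linarith
  · obtain ⟨I0, hI0, hne⟩ := hgen a ha2 K (lift2 y D) hV ⟨m0, by rw [← hθ]; exact hθy⟩
    have hW0 : lift2 y D ≠ 0 := by
      intro h0
      apply hθy
      rw [h0]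
      -- the value of a form of positive degree
      have hM : M ≠ 0 := by
        intro hM0
        rw [hM0] at hwr
        have : 0 < w * r := Nat.mul_pos (by omega) (by omega)
        omega
      have h4 := H64.AV.aeval_hom (k := k) (K := K) (fun _ => (0 : K)) 0 θ hθh
      rw [zero_pow hM] at h4
      have h5 := h4.trans (zero_mul _)
      simp only [mul_zero] at h5
      exact h5
    have hell : ∀ i, ell (a i) (xx y) ≠ 0 := fun i => (horb i).1
    have hcur := hCU5 k K htrK m n q0 r M w (fun i => a (I0 i)) S y D G hm hD hnc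
      (fun i => horb _)
      (fun v I' hI' => by
        have h1 := hgpv a ha3 K htrK y hQy hell v (I'.image I0) (fun i hi => by
          obtain ⟨i', hi', rfl⟩ := Finset.mem_image.1 hi
          exact hI' i' hi')
        rwa [Finset.card_image_of_injective _ hI0] at h1)
      hwr hG (fun i => hZI i K (lift2 y D) hV hW0) hne
    have hm1 : ((m : ℤ) - 1) = ((m - 1 : ℕ) : ℤ) := by
      rw [Nat.cast_sub (by omega : 1 ≤ m)]
      simp
    have hnum' : (2 * m * M : ℤ) + 1 ≤ ((m : ℤ) - 1) * q0 * w := by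
      rw [hm1]
      exact_mod_cast hnum
    have h3 : (deg k y : ℤ) ≤ B2 * (canDeg D + S.card) := by
      rw [hB2]
      push_cast
      nlinarith
    have hB2' : (1 : ℤ) ≤ B2 := by
      have : 1 ≤ B2 := by
        rw [hB2]
        have h6 : 0 < w * r := Nat.mul_pos (by omega) (by omega)
        exact Nat.mul_pos (by omega) (by omega)
      exact_mod_cast this
    have hχ : 0 ≤ canDeg D + S.card := by
      by_contra hcon
      push Not at hcon
      nlinarith
    push_cast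
    have : (0 : ℤ) ≤ B1 * (canDeg D + S.card) := by positivity
    linarith

end Pool.Agent.H30.LT
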