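import Pool.Agent.H30.LT.Targets

/-!
# Row ZIG: if `G` vanishes to the order `w` at the generic point, then everywhere
-/

set_option autoImplicit false

namespace Pool.Agent.H30.LT

open MvPolynomial SC Pool.Agent.H27.LV Pool.Agent.H30.AV Pool.Agent.H30.AW Pool.Agent.H30.AX

/-- `psub` is natural -/
lemma psub_map {R R' : Type} [CommRing R] [CommRing R'] {n : ℕ} (f : R →+* R') (W : Zw n → R)
    (q : ℕ) (p p' : Fin (n + 1)) (G : MvPolynomial (Lw q n) R) :
    MvPolynomial.map f (psub W q p p' G) = psub (fun s => f (W s)) q p p' (MvPolynomial.map f G) := by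
  induction G using MvPolynomial.induction_on with
  | C c =>
    unfold psub
    rw [map_C, aeval_C, aeval_C, algebraMap_eq, algebraMap_eq, map_C]
  | add g h hg hh => rw [map_add, map_add, hg, hh, map_add, map_add]
  | mul_X g v hg =>
    rw [map_mul, map_mul, hg, map_mul, map_mul, map_X]
    congr 1
    unfold psub
    rw [aeval_X, aeval_X]
    split_ifs
    · rw [map_sub, map_X, map_sum]
      congr 1
      refine Finset.sum_congr rfl fun t _ => ?_
      rw [map_mul, map_C, map_X]
    · rw [map_add, map_neg, map_X, map_sum]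
      congr 1
      refine Finset.sum_congr rfl fun t _ => ?_
      rw [map_mul, map_C, map_X]
    · rw [map_mul, map_C, map_X]

lemma coeff_sz {k Ω A : Type} [Field k] [Field Ω] [Algebra k Ω] {n : ℕ} (W : Zw n → Ω)
    (G : MvPolynomial A (MvPolynomial (Zw n) k)) (m : A →₀ ℕ) :
    coeff m (sz W G) = aeval W (coeff m G) := by
  unfold sz
  rw [coeff_map]
  rfl

/-- the zeros of an ideal with `Alt`, `Plu` are matrices of rank two -/
lemma rk2_of_zero {k Ω : Type} [Field k] [CharZero k] [Field Ω] [Algebra k Ω] {n : ℕ}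
    {P : Ideal (MvPolynomial (Zw n) k)} (halt : Alt P) (hplu : Plu P) (W : Zw n → Ω)
    (hW : ∀ g ∈ P, aeval W g = 0) : Rk2 W := by
  have : CharZero Ω := charZero_of_injective_algebraMap (algebraMap k Ω).injective
  have h1 : ∀ i j, W (i, j) = - W (j, i) := by
    intro i j
    have h := hW _ (halt i j)
    rw [map_add, aeval_X, aeval_X] at h
    exact eq_neg_of_add_eq_zero_left h
  refine ⟨fun i => ?_, h1, fun i j l m => ?_⟩
  · have h := h1 i i
    exact self_eq_neg.1 h
  · have h := hW _ (hplu i j l m)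
    simpa using h

theorem pf_ZIG (hPSI : T_PSI) : T_ZIG := by
  intro k _ _ n q w i P halt hplu F _ _ W hW G hG Ω _ _ W₁ hW₁ hne
  have h1 := rk2_of_zero halt hplu W (fun g hg => (hW g).2 hg)
  have h2 := rk2_of_zero halt hplu W₁ hW₁
  obtain ⟨⟨p, p'⟩, hpp⟩ : ∃ s, W₁ s ≠ 0 := Function.ne_iff.1 hne
  have hWpp : W (p, p') ≠ 0 := by
    intro h0
    have h3 : (X (p, p') : MvPolynomial (Zw n) k) ∈ P := (hW _).1 (by rw [aeval_X]; exact h0)
    have h4 := hW₁ _ h3
    rw [aeval_X] at h4
    exact hpp h4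
  have key : ∀ (Ω : Type) [Field Ω] [Algebra k Ω] (V : Zw n → Ω) (m : Lw q n →₀ ℕ),
      coeff m (psub V q p p' (sz V G)) =
        aeval V (coeff m (psub (fun s => (X s : MvPolynomial (Zw n) k)) q p p' G)) := by
    intro Ω _ _ V m
    rw [← coeff_sz]
    congr 1
    have h3 := psub_map (aeval V : MvPolynomial (Zw n) k →ₐ[k] Ω).toRingHom
      (fun s => (X s : MvPolynomial (Zw n) k)) q p p' G
    have h4 : (fun s => (aeval V : MvPolynomial (Zw n) k →ₐ[k] Ω).toRingHom
        ((fun s => (X s : MvPolynomial (Zw n) k)) s)) = V := by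
      funext s
      exact aeval_X V s
    rw [h4] at h3
    exact h3.symm
  rw [hPSI Ω n W₁ p p' h2 hpp q w i]
  intro m hm
  rw [key]
  apply hW₁
  rw [← hW, ← key]
  exact (hPSI F n W p p' h1 hWpp q w i _).1 hG m hm

end Pool.Agent.H30.LT
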