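import Pool.Agent.H30.AX.All
import Pool.Agent.H6.LT.RCO
import Pool.Agent.H6.LT.DER
import Pool.Agent.H6.LT.LEV
import Pool.Agent.H86.LT.XRO
import Pool.Agent.H34.LT.ABS
import Pool.Agent.H68.LT.PLK
import Pool.Agent.H97.LT.FIN
import Pool.Agent.H3.LT.TRF
import Pool.Agent.H60.LT.STP
import Pool.Agent.H86.LT.HIL
import Pool.Agent.H60.LT.GFN
import Pool.Agent.H46.LT.TAI
import Pool.Agent.H96.LT.LIM
import Pool.Agent.H34.LT.NM5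
import Pool.Agent.H70.LT.EX5
import Pool.Agent.H68.LT.PSI
import Pool.Agent.H30.LT.ZIG
import Pool.Agent.H69.LT.PX5
import Pool.Agent.H56.LT.GE5
import Pool.Agent.H1.LT.LO5
import Pool.Agent.H70.LT.CU5
import Pool.Agent.H3.LT.TA5
import Pool.Agent.H30.LT.PR5
import Pool.Agent.H97.LT.IN5
import Pool.Agent.H69.LT.IZ5
import Pool.Agent.H97.LT.VE5
import Pool.Agent.H64.LT.PJ5
import Pool.Agent.H46.LT.PRI
import Pool.Agent.H30.LT.FI5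

/-!
# MP_70ba79_ag: assembly of the board `al_modules`
-/

set_option autoImplicit false

namespace Pool.Agent.H30.LT

open MvPolynomial SC Pool.Agent.H27.LV Pool.Agent.H30.AV Pool.Agent.H30.AW Pool.Agent.H30.AX

theorem tRCO : T_RCO := Pool.Agent.H6.LT.RCO.pf_RCO

theorem tLEV : T_LEV := Pool.Agent.H6.LT.LEV.pf_LEV

theorem tXRO : T_XRO := Pool.Agent.H86.LT.XRO.pf_XRO Pool.Agent.H46.LT.PRI.pf_PRI tRCO

theorem tABS : T_ABS := Pool.Agent.H34.LT.ABS.pf_ABS tRCO tLEV tXRO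

theorem tPLK : T_PLK := Pool.Agent.H68.LT.PLK.pf_PLK

theorem tFIN : T_FIN := Pool.Agent.H97.LT.FIN.pf_FIN tRCO

theorem tSTP : T_STP :=
  Pool.Agent.H60.LT.STP.pf_STP tABS tFIN (Pool.Agent.H3.LT.TRF.pf_TRF tPLK) tRCO

theorem tHIL : T_HIL := Pool.Agent.H86.LT.HIL.pf_HIL tNN2 tFNT tALI tLAT

theorem tNM5 : T_NM5 := Pool.Agent.H34.LT.NM5.pf_NM5 Pool.Agent.H60.LT.GFN.pf_GFN
  Pool.Agent.H46.LT.TAI.pf_TAI Pool.Agent.H96.LT.LIM.pf_LIM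

theorem tEX5 : T_EX5 := Pool.Agent.H70.LT.EX5.pf_EX5 tSTP tFIN tHIL tNM5

theorem tPSI : T_PSI := Pool.Agent.H68.LT.PSI.pf_PSI tPLK

theorem tPX5 : T_PX5 := Pool.Agent.H69.LT.PX5.pf_PX5 tEX5 (pf_ZIG tPSI)

theorem tGE5 : T_GE5 := Pool.Agent.H56.LT.GE5.pf_GE5 tGE2

theorem tCU5 : T_CU5 := Pool.Agent.H70.LT.CU5.pf_CU5 tLO3 (Pool.Agent.H1.LT.LO5.pf_LO5 tPSI)
  pfm tDFI pfi ker

theorem tPR5 : T_PR5 := pf_PR5 tPX5 tGE5 tGPV tCU5 tBZ3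

theorem tIN5 : T_IN5 := Pool.Agent.H97.LT.IN5.pf_IN5 tPR5 Pool.Agent.H18.AX.pf_BO3

theorem tIZ5 : T_IZ5 := Pool.Agent.H69.LT.IZ5.pf_IZ5 Pool.Agent.H3.LT.TA5.pf_TA5 tIN5
  Pool.Agent.H18.AX.pf_BO3

theorem tVE5 : T_VE5 := Pool.Agent.H97.LT.VE5.pf_VE5 (pf_IZN tIZ3 tIZ5)

theorem tPJ5 : T_PJ5 := Pool.Agent.H64.LT.PJ5.pf_PJ5 tVE5

theorem tFI5 : T_FI5 := pf_FI5 tPJ5 tDC3

end Pool.Agent.H30.LT
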