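import Pool.Agent.H30.AX.Targets2

/-!
# MP_70ba79_ag: linearly many ramified sections

Common definitions of the modules of the board `al_modules`. It continues `aw_modules`. The forms
`G (a; W)` have the parameters `a_(i, t)` (the coefficients of `q` linear forms) and the variables
`W_(s, t)` (Plücker coordinates of the tangent lines); zeros of order `w` along the subspaces
`W a_i = 0` are counted by the ranks of modules over the polynomial ring of the parameters.
-/

set_option autoImplicit false

namespace Pool.Agent.H30.LT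

open MvPolynomial SC Pool.Agent.H27.LV Pool.Agent.H30.AV Pool.Agent.H30.AW Pool.Agent.H30.AX

attribute [local instance] MvPolynomial.algebraMvPolynomial

/-- the parameters `a_(i, t)`, coefficients of `q` linear forms -/
abbrev Lw (q n : ℕ) : Type := Fin q × Fin (n + 1)

/-- the ideal contains the Plücker relations -/
def Plu {k : Type} [Field k] {n : ℕ} (P : Ideal (MvPolynomial (Zw n) k)) : Prop :=
  ∀ i j l m : Fin (n + 1), X (i, j) * X (l, m) - X (i, l) * X (j, m) + X (i, m) * X (j, l) ∈ P

/-- antisymmetric matrices of rank two -/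
def Rk2 {R : Type} [CommRing R] {n : ℕ} (W : Zw n → R) : Prop :=
  (∀ i, W (i, i) = 0) ∧ (∀ i j, W (i, j) = - W (j, i)) ∧
    ∀ i j l m, W (i, j) * W (l, m) - W (i, l) * W (j, m) + W (i, m) * W (j, l) = 0

/-- the linear form with the coefficients `ω` -/
noncomputable def lin {𝔸 τ : Type} [CommRing 𝔸] [Fintype τ] (ω : τ → 𝔸) : MvPolynomial τ 𝔸 :=
  ∑ t, C (ω t) * X t

/-- `(W a_i)_s`, a linear form in the parameters -/
noncomputable def lf {R : Type} [CommRing R] {n : ℕ} (W : Zw n → R) (q : ℕ) (i : Fin q)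
    (s : Fin (n + 1)) : MvPolynomial (Lw q n) R := ∑ t, C (W (s, t)) * X (i, t)

/-- the ideal of the subspace `W a_i = 0` -/
noncomputable def nI {R : Type} [CommRing R] {n : ℕ} (W : Zw n → R) (q : ℕ) (i : Fin q) :
    Ideal (MvPolynomial (Lw q n) R) := Ideal.span (Set.range (lf W q i))

/-- a substitution which maps `(W a_i)_p'` to `W_pp' X_(i, p)` and `(W a_i)_p` to
`W_pp' X_(i, p')`, for all `i` -/
noncomputable def psub {R : Type} [CommRing R] {n : ℕ} (W : Zw n → R) (q : ℕ)
    (p p' : Fin (n + 1)) : MvPolynomial (Lw q n) R →ₐ[R] MvPolynomial (Lw q n) R :=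
  aeval fun v => if v.2 = p' then
      X v - ∑ t ∈ Finset.univ.filter (fun t => t ≠ p ∧ t ≠ p'), C (W (p, t)) * X (v.1, t)
    else if v.2 = p then
      - X v + ∑ t ∈ Finset.univ.filter (fun t => t ≠ p ∧ t ≠ p'), C (W (p', t)) * X (v.1, t)
    else C (W (p, p')) * X v

/-- the polynomials whose coefficients are in the submodule `V` -/
noncomputable def cof {R 𝔸 : Type} [CommRing R] [CommRing 𝔸] [Algebra R 𝔸] (τ : Type)
    (V : Submodule R 𝔸) : Submodule (MvPolynomial τ R) (MvPolynomial τ 𝔸) where
  carrier := {G | ∀ m, coeff m G ∈ V}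
  add_mem' := fun {f g} hf hg m => by
    rw [coeff_add]
    exact V.add_mem (hf m) (hg m)
  zero_mem' := fun m => by
    rw [coeff_zero]
    exact V.zero_mem
  smul_mem' := fun f G hG m => by
    classical
    rw [Algebra.smul_def, MvPolynomial.algebraMap_def, coeff_mul]
    refine V.sum_mem fun x _ => ?_
    rw [coeff_map, ← Algebra.smul_def]
    exact V.smul_mem _ (hG _)

/-- the rank of the module of the elements of `cof V` which are in the ideal `J` -/
noncomputable def rkI {R 𝔸 τ : Type} [CommRing R] [CommRing 𝔸] [Algebra R 𝔸]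
    (V : Submodule R 𝔸) (J : Ideal (MvPolynomial τ 𝔸)) : ℕ :=
  Module.finrank (MvPolynomial τ R) ↥(cof τ V ⊓ J.restrictScalars (MvPolynomial τ R))

/-- the values of the forms of degree `M` at the point `W` -/
noncomputable def Uf (k : Type) {F : Type} [Field k] [Field F] [Algebra k F] {n : ℕ}
    (W : Zw n → F) (M : ℕ) : Submodule k F :=
  (homogeneousSubmodule (Zw n) k M).map (aeval W : MvPolynomial (Zw n) k →ₐ[k] F).toLinearMap

/-- the polynomials in the parameters `a` whose coefficients are values of forms of degree `M` at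
`W`, and which vanish to the order `w` along the subspaces `W a_i = 0` -/
noncomputable def VM (k : Type) {F : Type} [Field k] [Field F] [Algebra k F] {n : ℕ}
    (W : Zw n → F) (w q M : ℕ) : Submodule (MvPolynomial (Lw q n) k) (MvPolynomial (Lw q n) F) :=
  cof (Lw q n) (Uf k W M) ⊓
    (⨅ i, nI W q i ^ w).restrictScalars (MvPolynomial (Lw q n) k)

/-- the rank of `VM` -/
noncomputable def hq (k : Type) {F : Type} [Field k] [Field F] [Algebra k F] {n : ℕ}
    (W : Zw n → F) (w q M : ℕ) : ℕ := Module.finrank (MvPolynomial (Lw q n) k) ↥(VM k W w q M)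

/-- substitute the values `W` of the variables `Z` -/
noncomputable def sz {k Ω A : Type} [Field k] [Field Ω] [Algebra k Ω] {n : ℕ} (W : Zw n → Ω)
    (G : MvPolynomial A (MvPolynomial (Zw n) k)) : MvPolynomial A Ω :=
  MvPolynomial.map (aeval W : MvPolynomial (Zw n) k →ₐ[k] Ω).toRingHom G

/-- substitute constants for the parameters -/
noncomputable def spa {k : Type} [Field k] {n q : ℕ} (a : Fin q → Fin (n + 1) → k)
    (G : MvPolynomial (Lw q n) (MvPolynomial (Zw n) k)) : MvPolynomial (Zw n) k :=
  eval (fun p => C (a p.1 p.2)) G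

/-- at every zero `W ≠ 0` of `P` the polynomial `G` vanishes to the order `w` along `W a_i = 0` -/
def ZI {k : Type} [Field k] {n q : ℕ} (P : Ideal (MvPolynomial (Zw n) k)) (i : Fin q) (w : ℕ)
    (G : MvPolynomial (Lw q n) (MvPolynomial (Zw n) k)) : Prop :=
  ∀ (Ω : Type) [Field Ω] [Algebra k Ω] (W : Zw n → Ω), (∀ g ∈ P, aeval W g = 0) → W ≠ 0 →
    sz W G ∈ nI W q i ^ w

/-- the numerical condition -/
def NQ (m r q : ℕ) : Prop :=
  2 * m ^ 2 * ((2 * r - 1) * (2 * r - 2) + 1) ≤ (m - 1) ^ 2 * (q - 2 * r) ∨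
    41 * m ^ 2 * r ≤ (m - 1) ^ 2 * (q - 2 * r)

end Pool.Agent.H30.LT
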