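import Pool.Agent.H30.AX.FI4
import Pool.Agent.H30.LT.PR5

/-!
# MP_70ba79_ag: the final theorem of the board `al_modules`, arbitrary generically finite morphisms
-/

set_option autoImplicit false

namespace Pool.Agent.H30.LT

open MvPolynomial SC Pool.Agent.H27.LV Pool.Agent.H30.AV Pool.Agent.H30.AW Pool.Agent.H30.AX

lemma NQ.num {m r q : ℕ} (h : NQ m r q) (hm : 2 ≤ m) (hr : 1 ≤ r) :
    2 * r ≤ q ∧ 2 * r * m < (m - 1) * q :=
  h.elim (fun h => num_bz hm hr h) fun h => ⟨(num_bz5 hm hr h).1.le, (num_bz5 hm hr h).2⟩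

theorem pf_IZN (hIZ3 : T_IZ3) (hIZ5 : T_IZ5) : T_IZN := by
  intro k _ _ _ m n r q Q hm hr hdim hq
  exact hq.elim (fun h => hIZ3 k m n r q Q hm hr hdim h) fun h => hIZ5 k m n r q Q hm hr hdim h

/-- FI5: the final theorem -/
def T_FI5 : Prop := ∀ (k : Type) [Field k] [IsAlgClosed k] [CharZero k] (m n r e q : ℕ)
  (Q : Set (MvPolynomial (Fin (n + 1)) k)), 2 ≤ m → 1 ≤ r → 1 ≤ e →
  (∀ g ∈ Q, ∃ d, g.IsHomogeneous d) → DimLE Q (r + 1) →
  NQ m r q →
  ∃ Δ : MvPolynomial (Fin q × Mon (n + 1) e) k, Δ ≠ 0 ∧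
    ∀ a : Fin q → Mon (n + 1) e → k, eval (fun p => a p.1 p.2) Δ ≠ 0 →
    ∀ (σ : Type) [Fintype σ] (P : Ideal (MvPolynomial σ k)) (φ : Fin (n + 1) → MvPolynomial σ k),
    P.IsPrime → (∀ g ∈ Q, aeval φ g ∈ P) → GenFinite P φ →
    (∀ i, aeval φ (frm (a i)) ∉ P ∧ PullDiv m e P φ (aeval φ (frm (a i)))) →
    ∃ (h : MvPolynomial σ k) (B : ℕ), h ∉ P ∧ DegreeBound k (P : Set (MvPolynomial σ k)) h
      (fun χ => B * χ)

theorem pf_FI5 (hPJ5 : T_PJ5) (hDC3 : T_DC3) : T_FI5 := by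
  intro k _ _ _ m n r e q Q hm hr he hQ hdim hq
  obtain ⟨Δ, B, hΔ, hB1, hB⟩ := hPJ5 k m n r e q Q hm hr he hQ hdim hq
  refine ⟨Δ, hΔ, ?_⟩
  intro a ha σ _ P φ hP hQφ hgen hdiv
  classical
  have hqpos : 0 < q := by
    have h1 := (hq.num hm hr).1
    omega
  -- some coordinate of the morphism is not zero
  obtain ⟨j0, hj0⟩ : ∃ j0, φ j0 ∉ P := by
    by_contra hcon
    push Not at hcon
    apply (hdiv ⟨0, hqpos⟩).1
    have h1 : ∀ g : MvPolynomial (Fin (n + 1)) k,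
        aeval φ g - C (eval 0 g) ∈ P := by
      intro g
      induction g using MvPolynomial.induction_on with
      | C c => rw [aeval_C, eval_C, algebraMap_eq, sub_self]; exact P.zero_mem
      | add f g hf hg =>
        rw [map_add, map_add, map_add]
        have := P.add_mem hf hg
        rwa [show aeval φ f - C (eval 0 f) + (aeval φ g - C (eval 0 g)) =
          aeval φ f + aeval φ g - (C (eval 0 f) + C (eval 0 g)) by ring] at this
      | mul_X f i hf =>
        rw [map_mul, map_mul, aeval_X, eval_X, Pi.zero_apply, mul_zero, map_zero, sub_zero]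
        exact P.mul_mem_left _ (hcon i)
    have h2 := h1 (frm (a ⟨0, hqpos⟩))
    have h3 : eval 0 (frm (a ⟨0, hqpos⟩)) = 0 := by
      have h4 := H64.AV.aeval_hom (k := k) (K := k) (fun _ => (0 : k)) 0 (frm (a ⟨0, hqpos⟩))
        (frm_homog (a ⟨0, hqpos⟩))
      rw [zero_pow (by omega)] at h4
      have h5 := h4.trans (zero_mul _)
      simp only [mul_zero] at h5
      exact h5
    rwa [h3, map_zero, sub_zero] at h2
  choose D d c hd hc hlead hrel using hgen
  refine ⟨φ j0 * (∏ i, aeval φ (frm (a i))) * ∏ s, aeval φ (c s (d s)), (∑ s, D s) * B, ?_, ?_⟩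
  · refine hP.mul_notMem (hP.mul_notMem hj0 ?_) ?_
    · rw [Ideal.IsPrime.prod_mem_iff]
      push Not
      exact fun i _ => (hdiv i).1
    · rw [Ideal.IsPrime.prod_mem_iff]
      push Not
      exact fun s _ => hlead s
  intro K _ _ _ htr S z hPz hreg hnc hh D0 hD0
  rw [map_mul, map_mul, map_prod, map_prod, mul_ne_zero_iff, mul_ne_zero_iff,
    Finset.prod_ne_zero_iff, Finset.prod_ne_zero_iff] at hh
  obtain ⟨⟨hZ0, hA⟩, hL⟩ := hh
  obtain ⟨Z, hZ⟩ : ∃ Z : Fin (n + 1) → K, Z = fun j => aeval z (φ j) := ⟨_, rfl⟩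
  have hZ0' : Z j0 ≠ 0 := by rw [hZ]; exact hZ0
  obtain ⟨z', hz'⟩ : ∃ z' : Fin (n + 1) → K, z' = fun j => (Z j0)⁻¹ * Z j := ⟨_, rfl⟩
  have hcomp : ∀ g, aeval z (aeval φ g) = aeval Z g := fun g => by
    rw [aeval_comp, hZ]
  have hform : ∀ (g : MvPolynomial (Fin (n + 1)) k) (N : ℕ), g.IsHomogeneous N →
      aeval z' g = ((Z j0)⁻¹) ^ N * aeval Z g := fun g N hg => by
    rw [hz']
    exact H64.AV.aeval_hom Z (Z j0)⁻¹ g hg
  have hone : z' j0 = 1 := by
    rw [hz']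
    exact inv_mul_cancel₀ hZ0'
  have hinv : ∀ N : ℕ, ((Z j0)⁻¹) ^ N ≠ 0 := fun N => pow_ne_zero _ (inv_ne_zero hZ0')
  -- the relations
  have hL' : ∀ s, aeval z' (c s (d s)) ≠ 0 := by
    intro s
    rw [hform _ _ (hc s _)]
    refine mul_ne_zero (hinv _) ?_
    rw [← hcomp]
    exact hL s (Finset.mem_univ s)
  have hrel' : ∀ s, ∑ l ∈ Finset.range (d s + 1), aeval z' (c s l) * z s ^ l = 0 := by
    intro s
    have h1 := hPz _ (hrel s)
    rw [map_sum] at h1
    have h2 : ∑ l ∈ Finset.range (d s + 1), aeval z' (c s l) * z s ^ l =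
        ((Z j0)⁻¹) ^ D s * ∑ l ∈ Finset.range (d s + 1), aeval z (aeval φ (c s l) * X s ^ l) := by
      rw [Finset.mul_sum]
      refine Finset.sum_congr rfl fun l _ => ?_
      rw [hform _ _ (hc s l), map_mul, map_pow, aeval_X, hcomp]
      ring
    rw [h2, h1, mul_zero]
  obtain ⟨hdeg, hconst⟩ := hDC3 k K htr σ n D d c z z' hd hc ⟨j0, hone⟩ hL' hrel'
  have hnc' : ∃ j, z' j ∉ Set.range (algebraMap k K) := by
    by_contra hcon
    push Not at hcon
    obtain ⟨j, hj⟩ := hnc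
    exact hj (hconst hcon j)
  -- orders
  have hfv : ∀ i, fv (a i) z' = ((Z j0)⁻¹) ^ e * aeval z (aeval φ (frm (a i))) := by
    intro i
    rw [fv_eq, hform _ _ (frm_homog (a i)), hcomp]
  have hAi : ∀ i, aeval z (aeval φ (frm (a i))) ≠ 0 := fun i => hA i (Finset.mem_univ i)
  -- the order of the ideal of the `φ_j`
  have hmin : ∀ v : DV k K, ∃ j1, Z j1 ≠ 0 ∧ ∀ j, ge v (v.ord (Z j1)) (Z j) := by
    intro v
    obtain ⟨j1, hj1, hj1'⟩ := Finset.exists_min_image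
      (Finset.univ.filter fun j => Z j ≠ 0) (fun j => v.ord (Z j))
      ⟨j0, Finset.mem_filter.2 ⟨Finset.mem_univ _, hZ0'⟩⟩
    refine ⟨j1, (Finset.mem_filter.1 hj1).2, fun j => ?_⟩
    by_cases h0 : Z j = 0
    · exact Or.inl h0
    · exact Or.inr (hj1' j (Finset.mem_filter.2 ⟨Finset.mem_univ _, h0⟩))
  have hpole : ∀ (v : DV k K) (j1 : Fin (n + 1)), Z j1 ≠ 0 →
      (∀ j, ge v (v.ord (Z j1)) (Z j)) →
      (poleOrder v z' : ℤ) = v.ord (Z j0) - v.ord (Z j1) := by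
    intro v j1 hj1 hle
    have hord : ∀ j, Z j ≠ 0 → v.ord (z' j) = -(v.ord (Z j0)) + v.ord (Z j) := by
      intro j hj
      rw [hz']
      change v.ord ((Z j0)⁻¹ * Z j) = _
      rw [v.ord_mul' (inv_ne_zero hZ0') hj, v.ord_inv]
    have h0 := (hle j0).resolve_left hZ0'
    have hub : poleOrder v z' ≤ (v.ord (Z j0) - v.ord (Z j1)).toNat := by
      unfold poleOrder
      refine Finset.sup_le fun j _ => ?_
      by_cases hj : Z j = 0
      · have h1 : z' j = 0 := by rw [hz']; simp [hj]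
        rw [h1, v.ord_zero]
        simp
      · have h1 := hord j hj
        have h2 := (hle j).resolve_left hj
        omega
    have hlb : (-(v.ord (z' j1))).toNat ≤ poleOrder v z' :=
      Finset.le_sup (f := fun i => (-(v.ord (z' i))).toNat) (Finset.mem_univ j1)
    have h3 := hord j1 hj1
    omega
  have hmain := hB a ha K htr S z' D0 hD0 ⟨j0, hone⟩ (fun g hg => by
      obtain ⟨N, hN⟩ := hQ g hg
      rw [hform g N hN, ← hcomp, hPz _ (hQφ g hg), mul_zero]) hnc'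
    (fun i => by rw [hfv i]; exact mul_ne_zero (hinv _) (hAi i))
    (fun v hv i => by
      obtain ⟨j1, hj1, hle⟩ := hmin v
      have h1 : v.ord (fv (a i) z') + e * poleOrder v z' =
          v.ord (aeval z (aeval φ (frm (a i)))) - e * v.ord (Z j1) := by
        rw [hfv i, v.ord_mul' (hinv _) (hAi i), v.ord_pow, v.ord_inv, hpole v j1 hj1 hle]
        ring
      rw [h1]
      have hZj : ∀ j, aeval z (φ j) = Z j := fun j => by rw [hZ]
      refine pull_ord v m e P φ _ z (hdiv i).2 (hreg v hv) (fun p hp => hPz p hp) (hAi i)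
        (v.ord (Z j1)) (fun j => ?_) j1 ?_ ?_
      · rw [hZj]; exact hle j
      · rw [hZj]; exact hj1
      · rw [hZj])
  have h1 : (deg k z : ℤ) ≤ ((∑ s, D s : ℕ) : ℤ) * deg k z' := by exact_mod_cast hdeg
  push_cast at h1 ⊢
  calc (deg k z : ℤ) ≤ (∑ s, (D s : ℤ)) * deg k z' := h1
    _ ≤ (∑ s, (D s : ℤ)) * (B * (canDeg D0 + S.card)) :=
        mul_le_mul_of_nonneg_left hmain (Finset.sum_nonneg fun _ _ => by positivity)
    _ = _ := by ring

end Pool.Agent.H30.LT
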